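import Pool.Agent.N990.PT.Stm

/-!
# PT/FIN: the finite volume Gibbs distributions are consistent (helper377)
-/

set_option autoImplicit false

open MeasureTheory Finset
open Pool.Agent.N988.EA Pool.Agent.N990.PT

namespace Pool.Agent.N377.PT

noncomputable section

variable {b q : ℕ}

/-- restriction to the half `r` -/
def rs (n : ℕ) (r : Fin b × Bool) (σ : Vert b (n + 1) → Fin q) : Vert b n → Fin q :=
  fun y => σ (Sum.inr (r.1, r.2, y) : Vert b (n + 1))

/-- the ends of the half `r` -/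
def te (n : ℕ) (r : Fin b × Bool) (τ : Bool → Fin q) (σ : Vert b (n + 1) → Fin q) :
    Bool → Fin q :=
  fun t => (Sum.elim τ σ : Pt b (n + 1) → Fin q) (emb r.1 r.2 (.inl t))

/-- the other terms of the action -/
def Rr (n : ℕ) (β : ℝ) (r : Fin b × Bool) (τ : Bool → Fin q)
    (σ : Vert b (n + 1) → Fin q) : ℝ :=
  ∑ ih ∈ (univ : Finset (Fin b × Bool)).erase r,
    act β n (Sum.elim (te n ih τ σ) (rs n ih σ))

theorem upd_inl (n : ℕ) (r : Fin b × Bool) (σ : Vert b (n + 1) → Fin q) (σ' : Vert b n → Fin q)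
    (i : Fin b) : upd n r σ σ' (Sum.inl i : Vert b (n + 1)) = σ (Sum.inl i : Vert b (n + 1)) := rfl

theorem upd_inr (n : ℕ) (r : Fin b × Bool) (σ : Vert b (n + 1) → Fin q) (σ' : Vert b n → Fin q)
    (i : Fin b) (h : Bool) (y : Vert b n) : upd n r σ σ' (Sum.inr (i, h, y) : Vert b (n + 1))
      = if (i, h) = r then σ' y else σ (Sum.inr (i, h, y) : Vert b (n + 1)) := rfl

theorem elim_emb (n : ℕ) (r : Fin b × Bool) (τ : Bool → Fin q) (σ : Vert b (n + 1) → Fin q)
    (x : Pt b n) : (Sum.elim τ σ : Pt b (n + 1) → Fin q) (emb r.1 r.2 x) =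
      (Sum.elim (te n r τ σ) (rs n r σ) : Pt b n → Fin q) x := by
  rcases x with t | y
  · rfl
  · rfl

theorem act_sum (n : ℕ) (β : ℝ) (τ : Bool → Fin q) (σ : Vert b (n + 1) → Fin q) :
    act β (n + 1) (Sum.elim τ σ) = ∑ ih : Fin b × Bool,
      act β n (Sum.elim (te n ih τ σ) (rs n ih σ)) := by
  unfold Pool.Agent.N990.PT.act
  rw [← mul_sum]
  congr 1
  show ∑ e : Fin b × Bool × Edge b n,
      (if (Sum.elim τ σ : Pt b (n + 1) → Fin q) (emb e.1 e.2.1 (bd n e.2.2 false)) =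
        (Sum.elim τ σ : Pt b (n + 1) → Fin q) (emb e.1 e.2.1 (bd n e.2.2 true))
        then (1 : ℝ) else 0) = _
  rw [Fintype.sum_prod_type, Fintype.sum_prod_type]
  refine sum_congr rfl fun i _ => ?_
  rw [Fintype.sum_prod_type]
  refine sum_congr rfl fun h _ => ?_
  refine sum_congr rfl fun e _ => ?_
  rw [← elim_emb n (i, h), ← elim_emb n (i, h)]

theorem act_split (n : ℕ) (β : ℝ) (r : Fin b × Bool) (τ : Bool → Fin q)
    (σ : Vert b (n + 1) → Fin q) :
    act β (n + 1) (Sum.elim τ σ) =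
      act β n (Sum.elim (te n r τ σ) (rs n r σ)) + Rr n β r τ σ := by
  rw [act_sum, ← add_sum_erase _ _ (mem_univ r)]
  rfl

theorem te_upd (n : ℕ) (r ih : Fin b × Bool) (τ : Bool → Fin q) (σ : Vert b (n + 1) → Fin q)
    (σ' : Vert b n → Fin q) : te n ih τ (upd n r σ σ') = te n ih τ σ := by
  funext t
  unfold te
  simp only [emb]
  by_cases h : t = ih.2
  · rw [if_pos h]; rfl
  · rw [if_neg h]; rfl

theorem rs_upd (n : ℕ) (r : Fin b × Bool) (σ : Vert b (n + 1) → Fin q) (σ' : Vert b n → Fin q) :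
    rs n r (upd n r σ σ') = σ' := by
  funext y
  unfold rs
  rw [upd_inr, if_pos rfl]

theorem rs_upd_ne (n : ℕ) (r ih : Fin b × Bool) (hne : ih ≠ r) (σ : Vert b (n + 1) → Fin q)
    (σ' : Vert b n → Fin q) : rs n ih (upd n r σ σ') = rs n ih σ := by
  funext y
  unfold rs
  rw [upd_inr, if_neg (show (ih.1, ih.2) ≠ r from hne)]

theorem upd_upd (n : ℕ) (r : Fin b × Bool) (σ : Vert b (n + 1) → Fin q)
    (σ' : Vert b n → Fin q) : upd n r (upd n r σ σ') (rs n r σ) = σ := by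
  funext x
  rcases x with i | ⟨i, h, y⟩
  · rfl
  · show upd n r (upd n r σ σ') (rs n r σ) (Sum.inr (i, h, y) : Vert b (n + 1)) = _
    rw [upd_inr]
    by_cases hq : (i, h) = r
    · rw [if_pos hq]; subst hq; rfl
    · rw [if_neg hq, upd_inr, if_neg hq]

theorem Rr_upd (n : ℕ) (β : ℝ) (r : Fin b × Bool) (τ : Bool → Fin q)
    (σ : Vert b (n + 1) → Fin q) (σ' : Vert b n → Fin q) :
    Rr n β r τ (upd n r σ σ') = Rr n β r τ σ := by
  unfold Rr
  refine sum_congr rfl fun ih hih => ?_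
  rw [te_upd, rs_upd_ne n r ih (mem_erase.mp hih).1]

/-- the involution `(σ, σ') ↦ (upd n r σ σ', rs n r σ)` -/
def Ph (n : ℕ) (r : Fin b × Bool) :
    Equiv.Perm ((Vert b (n + 1) → Fin q) × (Vert b n → Fin q)) where
  toFun z := (upd n r z.1 z.2, rs n r z.1)
  invFun z := (upd n r z.1 z.2, rs n r z.1)
  left_inv z := by
    obtain ⟨σ, σ'⟩ := z
    show (upd n r (upd n r σ σ') (rs n r σ), rs n r (upd n r σ σ')) = (σ, σ')
    rw [upd_upd, rs_upd]
  right_inv z := by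
    obtain ⟨σ, σ'⟩ := z
    show (upd n r (upd n r σ σ') (rs n r σ), rs n r (upd n r σ σ')) = (σ, σ')
    rw [upd_upd, rs_upd]

theorem Z_pos (n : ℕ) (β : ℝ) (τ : Bool → Fin q) : 0 < Zf b q β n τ := by
  have : Nonempty (Vert b n → Fin q) := ⟨fun _ => τ false⟩
  unfold Zf
  exact sum_pos (fun σ _ => Real.exp_pos _) univ_nonempty

theorem gw_sum (n : ℕ) (β : ℝ) (τ : Bool → Fin q) :
    ∑ s : Vert b n → Fin q, gw β n τ s = 1 := by
  unfold gw
  rw [← sum_div]
  exact div_self (Z_pos n β τ).ne'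

theorem t_fin : Pool.Agent.N990.PT.S_FIN := by
  intro b q β n r τ G
  have h1 : ∀ (σ : Vert b (n + 1) → Fin q) (σ' : Vert b n → Fin q),
      gw β (n + 1) τ (upd n r σ σ') * (gw β n (te n r τ (upd n r σ σ')) (rs n r σ) *
        G (upd n r (upd n r σ σ') (rs n r σ))) =
      gw β (n + 1) τ σ * G σ * gw β n (te n r τ σ) σ' := by
    intro σ σ'
    rw [upd_upd, te_upd]
    unfold gw
    rw [act_split n β r τ (upd n r σ σ'), act_split n β r τ σ, te_upd, rs_upd, Rr_upd,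
      Real.exp_add, Real.exp_add]
    ring
  have h2 := Equiv.sum_comp (Ph n r) fun z : (Vert b (n + 1) → Fin q) × (Vert b n → Fin q) =>
    gw β (n + 1) τ z.1 * (gw β n (te n r τ z.1) z.2 * G (upd n r z.1 z.2))
  rw [Fintype.sum_prod_type, Fintype.sum_prod_type] at h2
  have h3 : ∀ σ : Vert b (n + 1) → Fin q, ∑ σ' : Vert b n → Fin q,
      gw β (n + 1) τ (upd n r σ σ') * (gw β n (te n r τ (upd n r σ σ')) (rs n r σ) *
        G (upd n r (upd n r σ σ') (rs n r σ))) = gw β (n + 1) τ σ * G σ := by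
    intro σ
    simp_rw [h1]
    rw [← mul_sum, gw_sum, mul_one]
  have h4 : ∑ σ : Vert b (n + 1) → Fin q, gw β (n + 1) τ σ * G σ =
      ∑ σ : Vert b (n + 1) → Fin q, ∑ σ' : Vert b n → Fin q,
        gw β (n + 1) τ σ * (gw β n (te n r τ σ) σ' * G (upd n r σ σ')) := by
    rw [← h2]
    exact sum_congr rfl fun σ _ => (h3 σ).symm
  rw [h4]
  refine sum_congr rfl fun σ _ => ?_
  rw [← mul_sum]
  rfl

end

end Pool.Agent.N377.PT
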